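import Pool.Agent.Helper87.VM.Lib2
import Pool.Agent.Helper87.VM.Stmts

set_option autoImplicit false

namespace Pool.Agent.Helper87.VM

theorem st_CFREE (hC : ST_CDIST) : ST_CFREE := by
  intro G _ _ _ g hg z hz hz0 a
  rintro ⟨h1, h2⟩
  have hcard : Fintype.card ((Fin 2 × G) ⊕ Fin 2) = 2 * Fintype.card G + 2 := by
    rw [Fintype.card_sum, Fintype.card_prod, Fintype.card_fin]
  have hpos : 0 < Fintype.card G := Fintype.card_pos_iff.2 ⟨1⟩
  obtain ⟨h3, h4⟩ := hC ((Fin 2 × G) ⊕ Fin 2) (by omega) z hz hz0
  by_cases ha : a = 1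
  · subst ha
    set p : (Fin 2 × G) ⊕ Fin 2 := Sum.inl (0, g⁻¹) with hp
    set q : (Fin 2 × G) ⊕ Fin 2 := Sum.inl (1, g⁻¹) with hq
    have hp1 : z p = z (Sum.inl (0, 1)) := by
      have := h1 0 1
      rw [mul_one, one_mul] at this
      exact this
    have hq1 : z q = z (Sum.inl (1, 1)) := by
      have := h1 1 1
      rw [mul_one, one_mul] at this
      exact this
    have hgi : g⁻¹ ≠ 1 := inv_ne_one.2 hg
    have hpq : q ≠ p := by
      intro h
      have h5 := Prod.mk.inj (Sum.inl.inj h)
      exact absurd h5.1 (by decide)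
    have hsub : Set.range z ⊆ z '' (((Finset.univ.erase p).erase q : Finset _) :
        Set ((Fin 2 × G) ⊕ Fin 2)) := by
      rintro _ ⟨x, rfl⟩
      by_cases hxp : x = p
      · refine ⟨Sum.inl (0, 1), ?_, ?_⟩
        · rw [Finset.mem_coe, Finset.mem_erase, Finset.mem_erase]
          refine ⟨?_, ?_, Finset.mem_univ _⟩
          · intro h
            have h5 := Prod.mk.inj (Sum.inl.inj h)
            exact absurd h5.1 (by decide)
          · intro h
            have h5 := Prod.mk.inj (Sum.inl.inj h)
            exact hgi h5.2.symm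
        · rw [hxp, hp1]
      · by_cases hxq : x = q
        · refine ⟨Sum.inl (1, 1), ?_, ?_⟩
          · rw [Finset.mem_coe, Finset.mem_erase, Finset.mem_erase]
            refine ⟨?_, ?_, Finset.mem_univ _⟩
            · intro h
              have h5 := Prod.mk.inj (Sum.inl.inj h)
              exact hgi h5.2.symm
            · intro h
              have h5 := Prod.mk.inj (Sum.inl.inj h)
              exact absurd h5.1 (by decide)
          · rw [hxq, hq1]
        · refine ⟨x, ?_, rfl⟩
          rw [Finset.mem_coe, Finset.mem_erase, Finset.mem_erase]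
          exact ⟨hxq, hxp, Finset.mem_univ _⟩
    have h6 : (Set.range z).ncard ≤ Fintype.card ((Fin 2 × G) ⊕ Fin 2) - 2 := by
      calc (Set.range z).ncard ≤ (z '' (((Finset.univ.erase p).erase q : Finset _) :
            Set ((Fin 2 × G) ⊕ Fin 2))).ncard :=
            Set.ncard_le_ncard hsub ((Finset.finite_toSet _).image z)
        _ ≤ (((Finset.univ.erase p).erase q : Finset _) :
            Set ((Fin 2 × G) ⊕ Fin 2)).ncard := Set.ncard_image_le (Finset.finite_toSet _)
        _ = ((Finset.univ.erase p).erase q).card := Set.ncard_coe_finset _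
        _ = Fintype.card ((Fin 2 × G) ⊕ Fin 2) - 2 := by
            rw [Finset.card_erase_of_mem, Finset.card_erase_of_mem (Finset.mem_univ _),
              Finset.card_univ]
            · rfl
            · exact Finset.mem_erase.2 ⟨hpq, Finset.mem_univ _⟩
    omega
  · have h7 : ∀ j : Fin 2, z (Sum.inr j) = 0 := by
      intro j
      have h8 := h2 j
      have h9 : (1 - a) * z (Sum.inr j) = 0 := by
        rw [sub_mul, one_mul, ← h8, sub_self]
      rcases mul_eq_zero.1 h9 with h | h
      · exact absurd (sub_eq_zero.1 h).symm ha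
      · exact h
    refine h4 (Sum.inr 0) (Sum.inr 1) ?_ ⟨h7 0, h7 1⟩
    intro h
    exact absurd (Sum.inr.inj h) (by decide)

end Pool.Agent.Helper87.VM
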